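import Pool.Agent.Y840.CT.Low

/-!
# Chen triplets, and long narrow progressions in arbitrary dense sets of them

A Chen triplet is a triple `(n, n + a, n + 6)`, `a = 2` or `4`, one of whose members is a prime, another one is a product of at
most two primes (both larger than `X ^ (1/9)`), and the third one is a product of at most `t` primes larger than `X ^ (1/t)`;
the places of the three kinds are arbitrary. In every interval `(A, B]`, `θ X ≤ B - A`, `B ≤ X`, there are at least
`c (B - A) / log ^ 3 X` of them, and inside EVERY set `S` of Chen triplets (of one of the 12 kinds) of the interval, all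
elements with at most a proportion `δ` of exceptions (relative to all Chen triplets of this kind) lie on `k`-term progressions
of elements of `S` with difference at most `log ^ D X`.

The proof combines the sieve of Chen (`Pool.Agent.Y840.CT.genI`) and Szemerédi's theorem relative to sifted sets, with narrow
progressions (`Pool.Agent.Y843.HS.fin`), of the starting library.
-/

set_option autoImplicit false

open Finset Filter

namespace Pool.Agent.Results.MP_dddec0_nt.ChenTriplets

/-- `m ≠ 0` is up to the sign a product of at most `t` primes, all of them larger than `y` -/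
def Rough (t : ℕ) (y : ℝ) (m : ℤ) : Prop :=
  m ≠ 0 ∧ m.natAbs.primeFactorsList.length ≤ t ∧ ∀ q : ℕ, q.Prime → (q : ℤ) ∣ m → y < q

/-- `0, u, v` are (in some order) the places `s, s + a, s + 6` of a triplet, `a = 2` or `4` -/
def Places (u v : ℤ) : Prop := ∃ s a : ℤ, (a = 2 ∨ a = 4) ∧ ({0, u, v} : Finset ℤ) = {s, s + a, s + 6}

open Classical in
/-- The primes `p > X ^ (1/t)` of `(A, B]` for which `p + u` is a product of at most two primes `> X ^ (1/9)` (and of at most
`t` primes `> X ^ (1/t)`) and `p + v` is a product of at most `t` primes `> X ^ (1/t)`. -/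
noncomputable def P (t X A B : ℕ) (u v : ℤ) : Finset ℕ :=
  (Ioc A B).filter (fun p : ℕ => p.Prime ∧ (X : ℝ) ^ (1 / (t : ℝ)) < p ∧
    Rough 2 ((X : ℝ) ^ (1 / 9 : ℝ)) (p + u) ∧ Rough t ((X : ℝ) ^ (1 / (t : ℝ))) (p + u) ∧
    Rough t ((X : ℝ) ^ (1 / (t : ℝ))) (p + v))

/-- `p` is one of the terms of a `k`-term arithmetic progression of elements of `S` with a difference
between `1` and `D` -/
def OnAP (k : ℕ) (D : ℝ) (S : Finset ℕ) (p : ℕ) : Prop :=
  ∃ a d : ℕ, 1 ≤ d ∧ (d : ℝ) ≤ D ∧ (∀ j < k, a + j * d ∈ S) ∧ ∃ j < k, p = a + j * d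

theorem rough_neg (t : ℕ) (y : ℝ) (m : ℤ) : Pool.Agent.Y840.CT.Rough t y (-m) ↔ Rough t y m := by
  unfold Pool.Agent.Y840.CT.Rough Rough
  rw [neg_ne_zero, Int.natAbs_neg]
  simp only [dvd_neg]

/-- the shifts in the form of the library -/
def H (u v : ℤ) : Finset ℤ := {-u, -v}

theorem P_eq (t X A B : ℕ) (u v : ℤ) : P t X A B u v = Pool.Agent.Y840.CT.Good t X A B (H u v) (-u) := by
  classical
  unfold P Pool.Agent.Y840.CT.Good H
  apply filter_congr
  intro p _
  have e : ∀ w : ℤ, -w - (p : ℤ) = -((p : ℤ) + w) := fun w => by ring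
  rw [e u, rough_neg]
  simp only [mem_insert, mem_singleton, forall_eq_or_imp, forall_eq, e, rough_neg]

theorem sys_of {u v : ℤ} (h : Places u v) (X : ℕ) (hX : 6 ≤ X) : Pool.Agent.Y840.CT.Sys 2 X (H u v) := by
  obtain ⟨s, a, ha, hs⟩ := h
  have hcard : ({s, s + a, s + 6} : Finset ℤ).card = 3 := by
    rw [card_eq_three]
    exact ⟨s, s + a, s + 6, by omega, by omega, by omega, rfl⟩
  rw [← hs] at hcard
  have hne : (0 : ℤ) ≠ u ∧ (0 : ℤ) ≠ v ∧ u ≠ v := by
    refine ⟨?_, ?_, ?_⟩
    · rintro rfl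
      have : ({0, 0, v} : Finset ℤ).card ≤ 2 := by
        rw [insert_eq_of_mem (mem_insert_self _ _)]
        exact card_le_two
      omega
    · rintro rfl
      have : ({0, u, 0} : Finset ℤ).card ≤ 2 := by
        rw [insert_eq_of_mem (by simp)]
        exact card_le_two
      omega
    · rintro rfl
      have : ({0, u, u} : Finset ℤ).card ≤ 2 := by
        rw [pair_eq_singleton]
        exact card_le_two
      omega
  have h0 : (0 : ℤ) ∈ ({s, s + a, s + 6} : Finset ℤ) := by rw [← hs]; simp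
  have hu : u ∈ ({s, s + a, s + 6} : Finset ℤ) := by rw [← hs]; simp
  have hv : v ∈ ({s, s + a, s + 6} : Finset ℤ) := by rw [← hs]; simp
  simp only [mem_insert, mem_singleton] at h0 hu hv
  refine ⟨?_, ?_, ?_⟩
  · unfold H
    exact card_le_two
  · intro h hh
    unfold H at hh
    rw [mem_insert, mem_singleton] at hh
    have hX' : (6 : ℤ) ≤ X := by exact_mod_cast hX
    rcases hh with rfl | rfl
    · refine ⟨by omega, ?_⟩
      rw [abs_neg, abs_le]
      constructor <;> omega
    · refine ⟨by omega, ?_⟩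
      rw [abs_neg, abs_le]
      constructor <;> omega
  · intro q hq
    unfold Pool.Agent.Y840.CT.rho
    have hsub : (insert 0 (H u v)).image (fun h : ℤ => h % q) =
        ({s, s + a, s + 6} : Finset ℤ).image (fun h : ℤ => (-h) % q) := by
      rw [← hs]
      unfold H
      simp only [image_insert, image_singleton, neg_zero]
    rw [hsub]
    by_cases h3 : 3 < q
    · refine lt_of_le_of_lt card_image_le ?_
      rw [← hs, hcard]
      exact h3
    · have h2 := hq.two_le
      have hq23 : q = 2 ∨ q = 3 := by omega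
      rcases hq23 with rfl | rfl
      · have : ({s, s + a, s + 6} : Finset ℤ).image (fun h : ℤ => (-h) % ((2 : ℕ) : ℤ)) ⊆ {(-s) % 2} := by
          intro x hx
          simp only [mem_image, mem_insert, mem_singleton] at hx ⊢
          obtain ⟨h, hh, rfl⟩ := hx
          push_cast
          rcases ha with rfl | rfl <;> rcases hh with rfl | rfl | rfl <;> omega
        have h5 := card_le_card this
        rw [card_singleton] at h5
        omega
      · have : ({s, s + a, s + 6} : Finset ℤ).image (fun h : ℤ => (-h) % ((3 : ℕ) : ℤ)) ⊆ {(-s) % 3, (-(s + a)) % 3} := by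
          intro x hx
          simp only [mem_image, mem_insert, mem_singleton] at hx ⊢
          obtain ⟨h, hh, rfl⟩ := hx
          push_cast
          rcases ha with rfl | rfl <;> rcases hh with rfl | rfl | rfl <;> omega
        have h5 := (card_le_card this).trans card_le_two
        omega

/-- **Chen triplets.** -/
theorem result : ∃ t : ℕ, 1 ≤ t ∧ ∃ c : ℝ, 0 < c ∧
    (∀ θ : ℝ, 0 < θ → ∃ X₀ : ℕ, ∀ X : ℕ, X₀ ≤ X → ∀ u v : ℤ, Places u v →
      ∀ A B : ℕ, B ≤ X → θ * X ≤ (B : ℝ) - A → c * ((B : ℝ) - A) / Real.log X ^ 3 ≤ ((P t X A B u v).card : ℝ)) ∧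
    (∀ k : ℕ, 1 ≤ k → ∀ θ δ : ℝ, 0 < θ → 0 < δ → ∃ D X₀ : ℕ, ∀ X : ℕ, X₀ ≤ X → ∀ u v : ℤ, Places u v →
      ∀ A B : ℕ, B ≤ X → θ * X ≤ (B : ℝ) - A → ∀ S : Finset ℕ, S ⊆ P t X A B u v →
        (Set.ncard {p : ℕ | p ∈ S ∧ ¬ OnAP k (Real.log X ^ D) S p} : ℝ) ≤
          δ * ((P t X A B u v).card : ℝ)) := by
  classical
  obtain ⟨t, ht, c, hc, H1, H2⟩ := Pool.Agent.Y840.CT.genI 2
  obtain ⟨c2, hc2, hV⟩ := Pool.Agent.Y840.CT.Vp_low 2
  refine ⟨t, ht, c * c2, by positivity, ?_, ?_⟩
  · intro θ hθ
    obtain ⟨X₀, h1⟩ := H1 θ hθ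
    refine ⟨max X₀ 6, fun X hX u v huv A B hB hAB => ?_⟩
    have hX6 : 6 ≤ X := (le_max_right _ _).trans hX
    have hlX : 0 < Real.log X := Real.log_pos (by exact_mod_cast (by omega : 1 < X))
    have hS' := sys_of huv X hX6
    have hVn := hV X (by omega) (H u v) hS'.card hS'.loc
    have hBA : 0 ≤ (B : ℝ) - A := le_trans (by positivity) hAB
    rw [P_eq]
    refine le_trans ?_ (h1 X ((le_max_left _ _).trans hX) _ hS' (-u) (by unfold H; simp) A B hB hAB)
    calc c * c2 * ((B : ℝ) - A) / Real.log X ^ 3 = c * ((B : ℝ) - A) * (c2 / Real.log X ^ (2 + 1)) := by ring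
      _ ≤ c * ((B : ℝ) - A) * Pool.Agent.Y840.CT.Vp (H u v) X := mul_le_mul_of_nonneg_left hVn (by positivity)
  · intro k hk θ δ hθ hδ
    obtain ⟨D, X₀, h1⟩ := H2 k θ δ hθ hδ
    refine ⟨D, max X₀ 6, fun X hX u v huv A B hB hAB S hSP => ?_⟩
    have hX6 : 6 ≤ X := (le_max_right _ _).trans hX
    set Bd := S.filter (fun p => ¬ OnAP k (Real.log X ^ D) S p) with hBd
    have hset : {p : ℕ | p ∈ S ∧ ¬ OnAP k (Real.log X ^ D) S p} = (Bd : Set ℕ) := by
      ext p
      rw [hBd]
      simp
    rw [hset, Set.ncard_coe_finset]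
    by_contra hcon
    push Not at hcon
    rw [P_eq] at hSP hcon
    obtain ⟨a, d, hd1, hd2, hd3⟩ := h1 X ((le_max_left _ _).trans hX) _ (sys_of huv X hX6) (-u) (by unfold H; simp) A B hB hAB Bd
      ((filter_subset _ _).trans hSP) hcon.le
    have ha := hd3 0 hk
    rw [zero_mul, add_zero, hBd, mem_filter] at ha
    apply ha.2
    refine ⟨a, d, hd1, hd2, fun j hj => ?_, 0, hk, by simp⟩
    have := hd3 j hj
    rw [hBd, mem_filter] at this
    exact this.1

end Pool.Agent.Results.MP_dddec0_nt.ChenTriplets
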