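import Pool.Agent.TH977.PW.Inst
import Pool.Agent.Q45.RP.Union

set_option autoImplicit false

/-!
# The first elements of clusters of `k` primes in an interval of length `H`, all shapes together

`PrimeCluster k H p`: `p` is a prime and `[p, p + H]` contains at least `k` primes (for `k = 3`, `H = 6`, `p > 3` these are the
first elements of the prime triplets). Let `A` be an ARBITRARY set of such primes. In every short interval `(X, X + Y]`,
`X ^ θ ≤ Y ≤ X / 2`, all but `ε Y / (log X) ^ k` of the elements of `A` are regular points of `A`.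
-/

namespace Pool.Agent.Results.MP_dddec0_nt.ClustersOfPrimes

open Finset Filter Polynomial

open Classical in
/-- the number of the elements of `A` in `(u, v]` -/
noncomputable def N (A : Set ℕ) (u v : ℕ) : ℕ := ((Ioc u v).filter (fun m => m ∈ A)).card

/-- All intervals `(p - s, p + t]` with `s, t ≤ Y` of length at least `(log X) ^ k / c` contain the right order of
elements of `A`. -/
def RightOrder (A : Set ℕ) (k : ℕ) (c : ℝ) (X Y p : ℕ) : Prop :=
  ∀ s t : ℕ, s ≤ Y → t ≤ Y → Real.log X ^ k ≤ c * (s + t) →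
    c * (s + t) / Real.log X ^ k ≤ N A (p - s) (p + t) ∧
      (N A (p - s) (p + t) : ℝ) ≤ (s + t) / (c * Real.log X ^ k)

/-- Up to `δ`, `A` has a constant density on both sides of `p` up to the distance `2 ^ j`. -/
def ConstantDensity (A : Set ℕ) (k : ℕ) (c δ : ℝ) (X p j : ℕ) : Prop :=
  ∃ lam : ℝ, c ≤ lam ∧ lam ≤ 1 / c ∧ ∀ s t : ℕ, s ≤ 2 ^ j → t ≤ 2 ^ j →
    |(N A (p - s) (p + t) : ℝ) - lam * (s + t) / Real.log X ^ k| ≤ δ * 2 ^ j / Real.log X ^ k

open Classical in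
/-- the number of the scales `(log X) ^ k ≤ 2 ^ j ≤ Y` without this property -/
noncomputable def badScales (A : Set ℕ) (k : ℕ) (c δ : ℝ) (X Y p : ℕ) : ℕ :=
  ((range (Nat.log 2 Y + 1)).filter (fun j => Real.log X ^ k ≤ (2 : ℝ) ^ j ∧ ¬ ConstantDensity A k c δ X p j)).card

/-- The elements of `A` that are not regular points of `A`. -/
def Irregular (A : Set ℕ) (k : ℕ) (c δ : ℝ) (B X Y : ℕ) : Set ℕ :=
  {p | p ∈ A ∧ ¬ (RightOrder A k c X Y p ∧ badScales A k c δ X Y p ≤ B)}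

/-- `p` is a prime and `[p, p + H]` contains at least `k` primes -/
def PrimeCluster (k H p : ℕ) : Prop := p.Prime ∧ k ≤ ((Icc p (p + H)).filter Nat.Prime).card

/-- all prime factors of `q` are larger than `p ^ (1 / r)` -/
def RoughAt (r p q : ℕ) : Prop := ∀ l : ℕ, l.Prime → l ∣ q → (p : ℝ) ^ (1 / (r : ℝ)) < l

open Classical in
/-- `p` is a prime and `[p, p + H]` contains at least `k` numbers all whose prime factors are larger than `p ^ (1 / r)` -/
def RoughCluster (k H r p : ℕ) : Prop := p.Prime ∧ k ≤ ((Icc p (p + H)).filter (RoughAt r p)).card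

/-- for every prime `l` there is a residue class avoided by `-S` -/
def Admissible (S : Finset ℕ) : Prop := ∀ l : ℕ, l.Prime → ∃ m : ℕ, ∀ s ∈ S, ¬ l ∣ m + s

lemma N_eq : N = Pool.Agent.TH977.PW.N := by
  funext A u v
  unfold N Pool.Agent.TH977.PW.N
  rfl

lemma RightOrder_iff (A : Set ℕ) (k : ℕ) (c : ℝ) (X Y m : ℕ) :
    RightOrder A k c X Y m ↔ Pool.Agent.TH977.PW.RightOrder A k c X Y m := by
  unfold RightOrder Pool.Agent.TH977.PW.RightOrder
  simp only [N_eq]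

lemma ConstantDensity_iff (A : Set ℕ) (k : ℕ) (c δ : ℝ) (X m j : ℕ) :
    ConstantDensity A k c δ X m j ↔ Pool.Agent.TH977.PW.ConstantDensity A k c δ X m j := by
  unfold ConstantDensity Pool.Agent.TH977.PW.ConstantDensity
  simp only [N_eq]

open Classical in
lemma badScales_eq (A : Set ℕ) (k : ℕ) (c δ : ℝ) (X Y m : ℕ) :
    badScales A k c δ X Y m = Pool.Agent.TH977.PW.badScales A k c δ X Y m := by
  unfold badScales Pool.Agent.TH977.PW.badScales
  refine congrArg card (Finset.ext fun j => ?_)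
  simp only [mem_filter, ConstantDensity_iff]

lemma Irregular_eq (A : Set ℕ) (k : ℕ) (c δ : ℝ) (B X Y : ℕ) :
    Irregular A k c δ B X Y = Pool.Agent.TH977.PW.Irregular A k c δ B X Y := by
  unfold Irregular Pool.Agent.TH977.PW.Irregular
  simp only [RightOrder_iff, badScales_eq]

/-- the shapes: admissible sets of `k` offsets, containing `0`, at most `H` -/
def Sh (k H : ℕ) : Type := {S : Finset ℕ // S ⊆ range (H + 1) ∧ S.card = k ∧ 0 ∈ S ∧ Admissible S}

noncomputable instance (k H : ℕ) : Fintype (Sh k H) := by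
  classical
  refine Fintype.ofInjective (β := {S : Finset ℕ // S ∈ (range (H + 1)).powerset})
    (fun S => ⟨S.1, mem_powerset.2 S.2.1⟩) ?_
  intro S T h
  have := congrArg (fun x : {S : Finset ℕ // S ∈ (range (H + 1)).powerset} => x.1) h
  exact Subtype.ext this

/-- the offsets of a shape -/
noncomputable def off {k H : ℕ} (S : Sh k H) (i : Fin k) : ℕ := S.1.orderEmbOfFin S.2.2.1 i

lemma off_mem {k H : ℕ} (S : Sh k H) (i : Fin k) : off S i ∈ S.1 := Finset.orderEmbOfFin_mem _ _ _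

lemma off_inj {k H : ℕ} (S : Sh k H) {i j : Fin k} (h : off S i = off S j) : i = j :=
  (S.1.orderEmbOfFin S.2.2.1).injective h

lemma shape_sys {k H : ℕ} (S : Sh k H) :
    Pool.Agent.W123.RU.Poly.Sys (fun i : Fin k => Pool.Agent.W182.PW.lin 1 ((off S i : ℕ) : ℤ)) := by
  refine Pool.Agent.TH977.PW.sys_lin (fun _ => 1) (fun i => ((off S i : ℕ) : ℤ)) (fun _ => one_pos)
    (fun _ => by rw [Nat.cast_one]; exact isCoprime_one_left)
    (fun i j _ h => off_inj S (by exact_mod_cast h)) (fun l hl => ?_)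
  obtain ⟨m, hm⟩ := S.2.2.2.2 l hl
  refine ⟨m, fun i h => hm _ (off_mem S i) ?_⟩
  have h2 : (l : ℤ) ∣ ((m + off S i : ℕ) : ℤ) := by
    simpa using h
  exact Int.natCast_dvd_natCast.1 h2

open Classical in
/-- a rough cluster is a rough point of one of the shapes -/
lemma exists_shape {k H r m : ℕ} (hk : 1 ≤ k) (hr : 2 ≤ r) (hm : (k : ℝ) ≤ (m : ℝ) ^ (1 / (r : ℝ)))
    (h : RoughCluster k H r m) :
    ∃ S : Sh k H, Pool.Agent.TH977.PW.Rough (fun i : Fin k => Pool.Agent.W182.PW.lin 1 ((off S i : ℕ) : ℤ)) r m := by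
  obtain ⟨hp, hc⟩ := h
  have hself : RoughAt r m m := fun l hl hd => Pool.Agent.TH977.PW.rpow_lt_dvd r m l hr hp hl hd
  have h1 : ({m} : Finset ℕ) ⊆ (Icc m (m + H)).filter (RoughAt r m) := by
    rw [singleton_subset_iff, mem_filter, mem_Icc]
    exact ⟨⟨le_rfl, by omega⟩, hself⟩
  obtain ⟨T, hT1, hT2, hT3⟩ := exists_subsuperset_card_eq h1 (by rw [card_singleton]; exact hk) hc
  have hmT : m ∈ T := singleton_subset_iff.1 hT1
  have hTm : ∀ q ∈ T, m ≤ q ∧ q ≤ m + H ∧ RoughAt r m q := fun q hq => by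
    have := mem_filter.1 (hT2 hq)
    exact ⟨(mem_Icc.1 this.1).1, (mem_Icc.1 this.1).2, this.2⟩
  set S : Finset ℕ := T.image (fun q => q - m) with hS
  have hSm : ∀ s ∈ S, m + s ∈ T := by
    intro s hs
    obtain ⟨q, hq, rfl⟩ := mem_image.1 hs
    have := (hTm q hq).1
    rw [Nat.add_sub_of_le this]
    exact hq
  have hadm : Admissible S := by
    intro l hl
    by_cases hlk : l ≤ k
    · refine ⟨m, fun s hs hd => ?_⟩
      have h2 := (hTm _ (hSm s hs)).2.2 l hl hd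
      have h3 : (l : ℝ) ≤ k := by exact_mod_cast hlk
      linarith
    · have : Fact l.Prime := ⟨hl⟩
      have hlt : (S.image (fun s : ℕ => -(s : ZMod l))).card < (Finset.univ : Finset (ZMod l)).card := by
        rw [Finset.card_univ, ZMod.card]
        refine lt_of_le_of_lt card_image_le ?_
        refine lt_of_le_of_lt (card_image_le (s := T)) ?_
        omega
      obtain ⟨z, -, hz⟩ := Finset.exists_mem_notMem_of_card_lt_card hlt
      refine ⟨z.val, fun s hs hd => hz ?_⟩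
      rw [mem_image]
      refine ⟨s, hs, ?_⟩
      have h3 : ((z.val + s : ℕ) : ZMod l) = 0 := (ZMod.natCast_eq_zero_iff _ _).2 hd
      rw [Nat.cast_add, ZMod.natCast_zmod_val] at h3
      exact (eq_neg_of_add_eq_zero_left h3).symm
  have g1 : S ⊆ range (H + 1) := by
    intro s hs
    have := (hTm _ (hSm s hs)).2.1
    rw [mem_range]
    omega
  have g2 : S.card = k := by
    rw [hS, card_image_of_injOn, hT3]
    intro a ha b hb hab
    have h3 := (hTm a ha).1
    have h4 := (hTm b hb).1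
    simp only at hab
    omega
  have g3 : 0 ∈ S := mem_image.2 ⟨m, hmT, Nat.sub_self m⟩
  set S' : Sh k H := ⟨S, g1, g2, g3, hadm⟩ with hS'
  refine ⟨S', fun i l hl hd => ?_⟩
  rw [Pool.Agent.W182.PW.lin_eval] at hd
  have h3 : (l : ℤ) ∣ ((m + off S' i : ℕ) : ℤ) := by
    simpa using hd
  exact (hTm _ (hSm _ (off_mem S' i))).2.2 l hl (Int.natCast_dvd_natCast.1 h3)

open Classical in
lemma rough_of_prime {k H r p : ℕ} (hr : 2 ≤ r) (h : PrimeCluster k H p) : RoughCluster k H r p := by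
  refine ⟨h.1, h.2.trans (card_le_card ?_)⟩
  intro q hq
  rw [mem_filter] at hq ⊢
  refine ⟨hq.1, fun l hl hd => ?_⟩
  rw [(Nat.prime_dvd_prime_iff_eq hl hq.2).1 hd]
  exact Pool.Agent.TH977.PW.rpow_lt_of_le r p _ hr h.1.two_le (mem_Icc.1 hq.1).1

open Classical in
lemma lower (k H : ℕ) (θ : ℝ) (hθ : 0 < θ) (hθ1 : θ ≤ 1) (S : Sh k H) :
    ∃ r₀ : ℕ, ∀ r : ℕ, r₀ ≤ r → ∃ κ : ℝ, 0 < κ ∧ ∀ᶠ X : ℕ in atTop, κ * (X / Real.log X ^ k) ≤
      (N {p | p.Prime ∧ ∀ s ∈ S.1, RoughAt r p (p + s) ∧ (p + s).primeFactorsList.length ≤ r} X (2 * X) : ℝ) := by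
  have h0 := S.2.2.2.1
  have hc : Fintype.card {s // s ∈ S.1.erase 0} + 1 = k := by
    rw [Fintype.card_coe, card_erase_of_mem h0, S.2.2.1]
    have : 0 < S.1.card := card_pos.2 ⟨0, h0⟩
    have := S.2.2.1
    omega
  obtain ⟨r0, hr0, h1⟩ := Pool.Agent.TH977.PW.final_lin_prime (ι := {s // s ∈ S.1.erase 0})
    (fun _ => 1) (fun s => ((s.1 : ℕ) : ℤ)) (fun _ => one_pos)
    (fun _ => by rw [Nat.cast_one]; exact isCoprime_one_left)
    (fun i j _ h => Subtype.ext (by exact_mod_cast h))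
    (fun i h => (mem_erase.1 i.2).1 (by exact_mod_cast h.2))
    (fun l hl => by
      obtain ⟨m, hm⟩ := S.2.2.2.2 l hl
      refine ⟨m, fun hd => hm 0 h0 (by simpa using hd), fun i hd => hm i.1 (mem_of_mem_erase i.2) ?_⟩
      have h3 : (l : ℤ) ∣ ((m + i.1 : ℕ) : ℤ) := by simpa using hd
      exact Int.natCast_dvd_natCast.1 h3)
    (fun _ => ∅)
    (fun r => {p | p.Prime ∧ ∀ s ∈ S.1, RoughAt r p (p + s) ∧ (p + s).primeFactorsList.length ≤ r}) k hc
    (fun r m _ hm => by simp at hm)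
    (fun r m hr hm hm2 hm3 => ⟨hm, fun s hs => by
      by_cases hs0 : s = 0
      · subst hs0
        refine ⟨fun l hl hd => Pool.Agent.TH977.PW.rpow_lt_dvd r m l hr hm hl (by simpa using hd), ?_⟩
        rw [add_zero, Nat.primeFactorsList_prime hm]
        simp
        omega
      · have g1 := hm2 ⟨s, mem_erase.2 ⟨hs0, hs⟩⟩
        have g2 := hm3 ⟨s, mem_erase.2 ⟨hs0, hs⟩⟩
        have e : ((1 : ℕ) : ℤ) * (m : ℤ) + ((s : ℕ) : ℤ) = ((m + s : ℕ) : ℤ) := by push_cast; ring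
        simp only at g1 g2
        rw [e] at g1 g2
        rw [Int.natAbs_natCast] at g2
        exact ⟨fun l hl hd => g1 l hl (Int.natCast_dvd_natCast.2 hd), g2⟩⟩)
    θ hθ hθ1
  refine ⟨r0, fun r hr => ?_⟩
  obtain ⟨κ, hκ, h2⟩ := (h1 r hr).1
  refine ⟨κ, hκ, ?_⟩
  filter_upwards [h2] with X hX
  rw [N_eq]
  calc κ * (X / Real.log X ^ k) = κ * X / Real.log X ^ k := by ring
    _ ≤ _ := hX

/-- the clusters of three primes in an interval of length `6` are the prime triplets -/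
lemma triplets (p : ℕ) (hp : 3 < p) :
    PrimeCluster 3 6 p ↔ p.Prime ∧ (p + 6).Prime ∧ ((p + 2).Prime ∨ (p + 4).Prime) := by
  have e : Icc p (p + 6) = {p, p + 1, p + 2, p + 3, p + 4, p + 5, p + 6} := by
    ext x
    simp only [mem_Icc, mem_insert, mem_singleton]
    omega
  unfold PrimeCluster
  refine and_congr_right fun h => ?_
  have hodd : p % 2 = 1 := by
    rcases h.eq_two_or_odd with h1 | h1
    · omega
    · exact h1
  have n1 : ¬ (p + 1).Prime := fun h1 => by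
    rcases h1.eq_two_or_odd with h2 | h2 <;> omega
  have n3 : ¬ (p + 3).Prime := fun h1 => by
    rcases h1.eq_two_or_odd with h2 | h2 <;> omega
  have n5 : ¬ (p + 5).Prime := fun h1 => by
    rcases h1.eq_two_or_odd with h2 | h2 <;> omega
  have n24 : ¬ ((p + 2).Prime ∧ (p + 4).Prime) := by
    rintro ⟨h2, h4⟩
    have h3 : ∀ q : ℕ, q.Prime → 3 < q → q % 3 ≠ 0 := fun q hq hq3 h0 => by
      have := (Nat.prime_dvd_prime_iff_eq Nat.prime_three hq).1 (Nat.dvd_of_mod_eq_zero h0)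
      omega
    have a := h3 p h hp
    have b := h3 _ h2 (by omega)
    have c := h3 _ h4 (by omega)
    have h5 : p % 3 = 0 ∨ p % 3 = 1 ∨ p % 3 = 2 := by omega
    rcases h5 with h5 | h5 | h5 <;> omega
  rw [e]
  by_cases h2 : (p + 2).Prime <;> by_cases h4 : (p + 4).Prime <;> by_cases h6 : (p + 6).Prime
  · exact absurd ⟨h2, h4⟩ n24
  · exact absurd ⟨h2, h4⟩ n24
  all_goals
    simp only [filter_insert, filter_singleton, h, n1, h2, n3, h4, n5, h6, if_true, if_false, or_true, or_false,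
      and_true, and_false, iff_true, iff_false, or_self, not_le]
  · rw [card_insert_of_notMem, card_insert_of_notMem, card_singleton] <;> simp
  · exact lt_of_le_of_lt card_le_two (by norm_num)
  · rw [card_insert_of_notMem, card_insert_of_notMem, card_singleton] <;> simp
  · exact lt_of_le_of_lt card_le_two (by norm_num)
  · exact lt_of_le_of_lt card_le_two (by norm_num)
  · simp

open Classical in
/-- **Regular points of arbitrary sets of first elements of clusters of primes.** -/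
theorem result :
    (∀ (k H : ℕ), 1 ≤ k → ∀ θ : ℝ, 0 < θ → θ ≤ 1 →
      -- prime clusters
      (∀ ε : ℝ, 0 < ε → ∃ c : ℝ, 0 < c ∧ ∀ δ : ℝ, 0 < δ → ∃ B : ℕ, ∀ᶠ X : ℕ in atTop, ∀ Y : ℕ,
        (X : ℝ) ^ θ ≤ Y → 2 * Y ≤ X → ∀ A : Set ℕ, (∀ p ∈ A, PrimeCluster k H p) →
          (N (Irregular A k c δ B X Y) X (X + Y) : ℝ) ≤ ε * (Y / Real.log X ^ k)) ∧
      -- rough clusters
      ∃ r₀ : ℕ, ∀ r : ℕ, r₀ ≤ r →
        (∀ ε : ℝ, 0 < ε → ∃ c : ℝ, 0 < c ∧ ∀ δ : ℝ, 0 < δ → ∃ B : ℕ, ∀ᶠ X : ℕ in atTop, ∀ Y : ℕ,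
          (X : ℝ) ^ θ ≤ Y → 2 * Y ≤ X → ∀ A : Set ℕ, (∀ p ∈ A, RoughCluster k H r p) →
            (N (Irregular A k c δ B X Y) X (X + Y) : ℝ) ≤ ε * (Y / Real.log X ^ k)) ∧
        ∀ S : Finset ℕ, (∀ s ∈ S, s ≤ H) → S.card = k → 0 ∈ S → Admissible S →
          ∃ κ : ℝ, 0 < κ ∧ ∀ᶠ X : ℕ in atTop, κ * (X / Real.log X ^ k) ≤
            (N {p | p.Prime ∧ ∀ s ∈ S, RoughAt r p (p + s) ∧ (p + s).primeFactorsList.length ≤ r} X (2 * X) : ℝ)) ∧
    ∀ p : ℕ, 3 < p → (PrimeCluster 3 6 p ↔ p.Prime ∧ (p + 6).Prime ∧ ((p + 2).Prime ∨ (p + 4).Prime)) := by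
  refine ⟨fun k H hk θ hθ hθ1 => ?_, triplets⟩
  have : Nonempty (Fin k) := ⟨⟨0, hk⟩⟩
  obtain ⟨r0, hr0, h1⟩ := Pool.Agent.Q45.RP.hered_union
    (fun (S : Sh k H) (i : Fin k) => Pool.Agent.W182.PW.lin 1 ((off S i : ℕ) : ℤ)) (fun S => shape_sys S) θ hθ hθ1
  choose rS hrS using fun S : Sh k H => lower k H θ hθ hθ1 S
  set R : ℕ := r0 + ∑ S, rS S with hR
  have hR0 : r0 ≤ R := by omega
  have key : ∀ r : ℕ, R ≤ r → ∀ ε : ℝ, 0 < ε → ∃ c : ℝ, 0 < c ∧ ∀ δ : ℝ, 0 < δ → ∃ B : ℕ,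
      ∀ᶠ X : ℕ in atTop, ∀ Y : ℕ,
      (X : ℝ) ^ θ ≤ Y → 2 * Y ≤ X → ∀ A : Set ℕ, (∀ p ∈ A, RoughCluster k H r p) →
        (N (Irregular A k c δ B X Y) X (X + Y) : ℝ) ≤ ε * (Y / Real.log X ^ k) := by
    intro r hr ε hε
    obtain ⟨c, hc, h2⟩ := h1 r (hR0.trans hr) ε hε
    refine ⟨c, hc, fun δ hδ => ?_⟩
    obtain ⟨B, h3⟩ := h2 δ hδ
    refine ⟨B, ?_⟩
    have hr2 : 2 ≤ r := by omega
    have hrpos : (0 : ℝ) < 1 / (r : ℝ) := by
      have : (0 : ℝ) < r := by exact_mod_cast (by omega : 0 < r)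
      positivity
    have hbig : Tendsto (fun X : ℕ => ((X : ℝ) / 2) ^ (1 / (r : ℝ))) atTop atTop :=
      (tendsto_rpow_atTop hrpos).comp (tendsto_natCast_atTop_atTop.atTop_div_const (by norm_num))
    filter_upwards [h3, hbig.eventually_ge_atTop (k : ℝ)] with X hX hXk Y hXY hYX A hA
    have h4 := hX Y hXY hYX A (fun m hm hm1 _ => exists_shape hk hr2 (by
      refine hXk.trans (Real.rpow_le_rpow (by positivity) ?_ hrpos.le)
      have h5 : X ≤ 2 * m := by omega
      have h6 : (X : ℝ) ≤ 2 * m := by exact_mod_cast h5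
      linarith) (hA m hm))
    rw [Fintype.card_fin] at h4
    rw [N_eq, Irregular_eq]
    calc _ ≤ ε * Y / Real.log X ^ k := h4
      _ = _ := by ring
  refine ⟨?_, R, fun r hr => ⟨key r hr, fun S hSH hSk hS0 hSa => ?_⟩⟩
  · intro ε hε
    obtain ⟨c, hc, h2⟩ := key R le_rfl ε hε
    refine ⟨c, hc, fun δ hδ => ?_⟩
    obtain ⟨B, h3⟩ := h2 δ hδ
    refine ⟨B, ?_⟩
    filter_upwards [h3] with X hX Y hXY hYX A hA
    exact hX Y hXY hYX A (fun p hp => rough_of_prime (by omega) (hA p hp))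
  · set S' : Sh k H := ⟨S, fun s hs => mem_range.2 (Nat.lt_succ_of_le (hSH s hs)), hSk, hS0, hSa⟩ with hS'
    refine hrS S' r ?_
    have := single_le_sum (f := rS) (fun i _ => Nat.zero_le _) (mem_univ S')
    omega

end Pool.Agent.Results.MP_dddec0_nt.ClustersOfPrimes
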