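import Pool.Agent.Q45.Tup.Dig

/-!
# Triplets of consecutive rough numbers with restricted digits, isolated, near every base point

Let `a = 2` or `4`. For large `r` the integers `m` such that `m`, `m + a`, `m + 6` have at most `r` prime factors, all larger
than `y ^ (1 / r)` (`m` has about the size `y`, or up to `y ^ E`), and such that NO OTHER integer of `[m - L, m + 6 + L]` has
only prime factors larger than `y ^ (1 / r)`, are counted up to a constant factor among the integers with restricted digits: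
let `g ≥ 2` be a base, `y = g ^ K`, and for every `i < K` let `A i` be an ARBITRARY set of digits, subject only to the
condition that `|A 0| ⋯ |A (K - 1)| ≥ exp (- c K) g ^ K`. For every base point `N ≤ g ^ (E K)` the number of the
`j < g ^ K` with `i`-th digit in `A i` for which `m = N + j + L` has the property is at least `κ |A 0| ⋯ |A (K - 1)| / K ^ 3`,
the expected order, if there are digits `d ∈ A 0` such that `N + L + d` and the two other numbers are prime to `g` and
`d ≠ 0` in `A (K - 1)`. The number of the `j` with these digits for which `N + j + L` is the first member of a prime triplet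
is at most `C |A 0| ⋯ |A (K - 1)| / K ^ 3`.
-/

set_option autoImplicit false

namespace Pool.Agent.Results.MP_dddec0_nt.ConsecutiveRoughTriplets

open Filter Finset
open Pool.Agent.Q45.Tup.Dig (HasDigits choices Rough count)

/-- the first members of the prime triplets -/
def T : Set ℕ := {p | p.Prime ∧ (p + 6).Prime ∧ ((p + 2).Prime ∨ (p + 4).Prime)}

/-- The rough numbers (all prime factors larger than `y ^ (1 / r)`) in `[n, n + 6 + 2 L]` are exactly `m = n + L`, `m + a`,
`m + 6`, and these have at most `r` prime factors (counted with multiplicity). -/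
def IsolatedTriplet (L y r a n : ℕ) : Prop :=
  (∀ e ≤ 6 + 2 * L, (Rough y r (n + e) ↔ e = L ∨ e = L + a ∨ e = L + 6)) ∧
    ∀ e : ℕ, (e = L ∨ e = L + a ∨ e = L + 6) → (n + e).primeFactorsList.length ≤ r

lemma adm (L a : ℕ) (ha : a = 2 ∨ a = 4) : Pool.Agent.Q45.Tup.Dig.Admissible {L, L + a, L + 6} := by
  intro q hq
  by_contra hcon
  push Not at hcon
  have h1 := Pool.Agent.Q45.Tup.Dig.le_card (H := ({L, L + a, L + 6} : Finset ℕ)) hq hcon
  have h3 : ({L, L + a, L + 6} : Finset ℕ).card ≤ 3 := card_le_three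
  have h2 := hq.two_le
  -- `m + L ≡ 1 (mod 6)` or `5 (mod 6)`
  have h5 : q = 2 ∨ q = 3 := by omega
  rcases ha with rfl | rfl
  · obtain ⟨e, he, hd⟩ := hcon (5 * L + 5)
    simp only [mem_insert, mem_singleton] at he
    rcases h5 with rfl | rfl <;> rcases he with rfl | rfl | rfl <;> omega
  · obtain ⟨e, he, hd⟩ := hcon (5 * L + 1)
    simp only [mem_insert, mem_singleton] at he
    rcases h5 with rfl | rfl <;> rcases he with rfl | rfl | rfl <;> omega

lemma card3 (L a : ℕ) (ha : a = 2 ∨ a = 4) : ({L, L + a, L + 6} : Finset ℕ).card = 3 := by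
  rw [card_eq_three]
  exact ⟨L, L + a, L + 6, by omega, by omega, by omega, rfl⟩

/-- **Triplets of consecutive rough numbers with restricted digits.** -/
theorem result (L E : ℕ) :
    ∃ c : ℝ, 0 < c ∧ ∃ r₀ : ℕ, 2 ≤ r₀ ∧ ∀ r : ℕ, r₀ ≤ r → ∀ g : ℕ, 2 ≤ g → ∃ κ C : ℝ, 0 < κ ∧ 0 < C ∧
      ∀ᶠ K : ℕ in atTop, ∀ N : ℕ, N ≤ g ^ (E * K) →
        ∀ A : ℕ → Finset ℕ, (∀ i < K, A i ⊆ range g) → (g : ℝ) ^ K ≤ Real.exp (c * K) * choices K A →
          (∀ a : ℕ, (a = 2 ∨ a = 4) → (∃ d ∈ A 0, (N + d + L).Coprime g ∧ (N + d + L + a).Coprime g ∧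
              (N + d + L + 6).Coprime g) → (∃ d ∈ A (K - 1), d ≠ 0) →
            κ * choices K A / (K : ℝ) ^ 3 ≤ count g K A fun j => IsolatedTriplet L (g ^ K) r a (N + j)) ∧
          (count g K A (fun j => N + j + L ∈ T) : ℝ) ≤ C * choices K A / (K : ℝ) ^ 3 := by
  classical
  have key := fun (a : ℕ) (ha : a = 2 ∨ a = 4) =>
    Pool.Agent.Q45.Tup.Dig.consec {L, L + a, L + 6} ⟨L, mem_insert_self _ _⟩ (adm L a ha) (6 + 2 * L) E
  obtain ⟨c1, hc1, r1, hr1, h1⟩ := key 2 (Or.inl rfl)
  obtain ⟨c2, hc2, r2, hr2, h2⟩ := key 4 (Or.inr rfl)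
  rw [card3 L 2 (Or.inl rfl)] at h1
  rw [card3 L 4 (Or.inr rfl)] at h2
  refine ⟨min c1 c2, lt_min hc1 hc2, max r1 r2, hr1.trans (le_max_left _ _), fun r hr g hg => ?_⟩
  obtain ⟨κ1, C1, hκ1, hC1, h1⟩ := h1 r ((le_max_left _ _).trans hr) g hg
  obtain ⟨κ2, C2, hκ2, hC2, h2⟩ := h2 r ((le_max_right _ _).trans hr) g hg
  refine ⟨min κ1 κ2, C1 + C2, lt_min hκ1 hκ2, by positivity, ?_⟩
  filter_upwards [h1, h2, eventually_ge_atTop 1] with K hK1 hK2 hK3 N hN A hA hprod
  have hch : (0 : ℝ) ≤ choices K A := Nat.cast_nonneg _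
  have hexp : ∀ c : ℝ, min c1 c2 ≤ c → (g : ℝ) ^ K ≤ Real.exp (c * K) * choices K A := by
    intro c hc
    refine hprod.trans (mul_le_mul_of_nonneg_right ?_ hch)
    apply Real.exp_le_exp.2
    exact mul_le_mul_of_nonneg_right hc (Nat.cast_nonneg _)
  obtain ⟨l1, u1⟩ := hK1 N hN A hA (hexp c1 (min_le_left _ _))
  obtain ⟨l2, u2⟩ := hK2 N hN A hA (hexp c2 (min_le_right _ _))
  have conv : ∀ a : ℕ, a = 2 ∨ a = 4 → ∀ n : ℕ,
      Pool.Agent.Q45.Tup.Dig.Realises {L, L + a, L + 6} (6 + 2 * L) (g ^ K) r n → IsolatedTriplet L (g ^ K) r a n := by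
    intro a ha n hn
    refine ⟨fun e he => ⟨fun hR => ?_, fun he' => ?_⟩, fun e he' => ?_⟩
    · by_contra hcon
      refine hn.2 e he ?_ hR
      simpa only [mem_insert, mem_singleton] using hcon
    · exact (hn.1 e (by simpa only [mem_insert, mem_singleton] using he')).1
    · exact (hn.1 e (by simpa only [mem_insert, mem_singleton] using he')).2
  constructor
  · intro a ha hd hd'
    obtain ⟨d, hd0, hd1, hd2, hd3⟩ := hd
    have hdd : ∃ d ∈ A 0, ∀ h ∈ ({L, L + a, L + 6} : Finset ℕ), (N + d + h).Coprime g := by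
      refine ⟨d, hd0, fun h hh => ?_⟩
      simp only [mem_insert, mem_singleton] at hh
      rcases hh with rfl | rfl | rfl
      · exact hd1
      · rw [← add_assoc]; exact hd2
      · rw [← add_assoc]; exact hd3
    rcases ha with rfl | rfl
    · refine le_trans ?_ ((l1 hdd hd').trans (Nat.cast_le.2 (Pool.Agent.Q45.Tup.Dig.count_mono
        (fun j _ hj => conv 2 (Or.inl rfl) _ hj))))
      gcongr
      exact min_le_left _ _
    · refine le_trans ?_ ((l2 hdd hd').trans (Nat.cast_le.2 (Pool.Agent.Q45.Tup.Dig.count_mono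
        (fun j _ hj => conv 4 (Or.inr rfl) _ hj))))
      gcongr
      exact min_le_right _ _
  · have h3 : count g K A (fun j => N + j + L ∈ T) ≤
        count g K A (fun j => ∀ h ∈ ({L, L + 2, L + 6} : Finset ℕ), (N + j + h).Prime) +
        count g K A (fun j => ∀ h ∈ ({L, L + 4, L + 6} : Finset ℕ), (N + j + h).Prime) := by
      refine Pool.Agent.Q45.Tup.Dig.count_or fun j _ hj => ?_
      obtain ⟨hj3, hj4, hj5⟩ := hj
      rcases hj5 with h | h
      · left
        intro e he
        simp only [mem_insert, mem_singleton] at he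
        rcases he with rfl | rfl | rfl
        · exact hj3
        · rw [← add_assoc]; exact h
        · rw [← add_assoc]; exact hj4
      · right
        intro e he
        simp only [mem_insert, mem_singleton] at he
        rcases he with rfl | rfl | rfl
        · exact hj3
        · rw [← add_assoc]; exact h
        · rw [← add_assoc]; exact hj4
    have h4 : (count g K A (fun j => N + j + L ∈ T) : ℝ) ≤
        C1 * choices K A / (K : ℝ) ^ 3 + C2 * choices K A / (K : ℝ) ^ 3 := by
      refine le_trans (by exact_mod_cast h3) (add_le_add u1 u2)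
    calc _ ≤ _ := h4
      _ = _ := by ring

end Pool.Agent.Results.MP_dddec0_nt.ConsecutiveRoughTriplets
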