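import Pool.Agent.Q45.Tup.AP

/-!
# Almost all prime triplets of every interval lie on long narrow progressions of prime triplets

Let `T` be the set of the first members `p` of the prime triplets, i.e. `p`, `p + 6` and `p + 2` or `p + 4` are primes.
Sieve methods give the upper bound `O (X / log ^ 3 X)` for the number of elements of `T` in an interval of length `X`,
the conjectured order of magnitude in the usual ranges.

For all `k` and `δ > 0` there is `D` such that for all large `X`, ALL `A` and EVERY subset `S` of `T ∩ (A, A + X]`: all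
elements of `S` with at most `δ X / log ^ 3 X` exceptions are terms of `k`-term progressions of elements of `S`, all of
the same kind (`p + 2` prime or `p + 4` prime), with difference at most `log ^ D X`. The same is true for the rough
triplets, i.e. the integers `n` such that `n`, `n + b`, `n + 6` have no prime factor `≤ X ^ κ` (`b = 2` or `4`, `κ > 0`
arbitrarily small), of which there are more than `c X / log ^ 3 X`.

The proof uses Szemerédi's theorem relative to sifted sets, with narrow progressions, of the starting library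
(`Pool.Agent.Y843.HS.fin`).
-/

set_option autoImplicit false

open Finset Filter

namespace Pool.Agent.Results.MP_dddec0_nt.TripletsOnProgressions

/-- the first members of the prime triplets -/
def T : Set ℕ := {p | p.Prime ∧ (p + 6).Prime ∧ ((p + 2).Prime ∨ (p + 4).Prime)}

/-- `p` is one of the terms of a `k`-term arithmetic progression with a difference between `1` and `D`, all terms of
which belong to `S` -/
def OnAP (k : ℕ) (D : ℝ) (S : Set ℕ) (p : ℕ) : Prop :=
  ∃ a d : ℕ, 1 ≤ d ∧ (d : ℝ) ≤ D ∧ (∀ j < k, a + j * d ∈ S) ∧ ∃ j < k, p = a + j * d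

/-- `n`, `n + b` and `n + 6` have no prime factor `≤ y` -/
def RoughTriplet (y : ℝ) (b n : ℕ) : Prop :=
  ∀ h ∈ ({0, b, 6} : Finset ℕ), ∀ q : ℕ, q.Prime → q ∣ n + h → y < q

lemma onAP_iff (k : ℕ) (D : ℝ) (S : Finset ℕ) (p : ℕ) : OnAP k D (S : Set ℕ) p ↔ Pool.Agent.Q45.Tup.OnAP k D S p := by
  unfold OnAP Pool.Agent.Q45.Tup.OnAP
  simp only [mem_coe]

lemma adm (b : ℕ) (hb : b = 2 ∨ b = 4) (q : ℕ) (hq : q.Prime) :
    ∃ m : ℕ, ∀ h ∈ ({0, b, 6} : Finset ℕ), ¬ q ∣ m + h := by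
  by_cases h5 : q < 5
  · have h2 := hq.two_le
    rcases hb with rfl | rfl
    · interval_cases q
      · exact ⟨1, by decide⟩
      · exact ⟨2, by decide⟩
      · exact absurd hq (by norm_num)
    · interval_cases q
      · exact ⟨1, by decide⟩
      · exact ⟨1, by decide⟩
      · exact absurd hq (by norm_num)
  · -- five or more classes
    by_contra hcon
    push Not at hcon
    have h1 := Pool.Agent.Q45.Tup.Z_card_le (H := ({0, b, 6} : Finset ℕ)) (q := q) hq.pos hcon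
    have h3 : ({0, b, 6} : Finset ℕ).card ≤ 3 := card_le_three
    omega

lemma card3 (b : ℕ) (hb : b = 2 ∨ b = 4) : ({0, b, 6} : Finset ℕ).card = 3 := by
  rcases hb with rfl | rfl <;> decide

/-- **Prime triplets and rough triplets on narrow progressions.** -/
theorem result (k : ℕ) (hk : 1 ≤ k) (δ : ℝ) (hδ : 0 < δ) :
    -- prime triplets
    (∃ D X₀ : ℕ, ∀ X : ℕ, X₀ ≤ X → ∀ A : ℕ, ∀ S : Set ℕ, S ⊆ T → (∀ p ∈ S, A < p ∧ p ≤ A + X) →
      (Set.ncard {p : ℕ | p ∈ S ∧ ¬ (OnAP k (Real.log X ^ D) (S ∩ {n | (n + 2).Prime}) p ∨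
        OnAP k (Real.log X ^ D) (S ∩ {n | (n + 4).Prime}) p)} : ℝ) ≤ δ * (X / Real.log X ^ 3)) ∧
    -- rough triplets
    (∀ κ : ℝ, 0 < κ → ∃ D X₀ : ℕ, ∀ X : ℕ, X₀ ≤ X → ∀ A : ℕ, ∀ b : ℕ, (b = 2 ∨ b = 4) → ∀ S : Set ℕ,
      (∀ n ∈ S, A < n ∧ n ≤ A + X ∧ RoughTriplet ((X : ℝ) ^ κ) b n) →
      (Set.ncard {n : ℕ | n ∈ S ∧ ¬ OnAP k (Real.log X ^ D) S n} : ℝ) ≤ δ * (X / Real.log X ^ 3)) := by
  classical
  constructor
  · have key : ∀ b : ℕ, b = 2 ∨ b = 4 → ∃ D X₀ : ℕ, ∀ X : ℕ, X₀ ≤ X → ∀ A : ℕ,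
        ∀ S : Finset ℕ, (∀ n ∈ S, A < n ∧ n ≤ A + X ∧ ∀ h ∈ ({0, b, 6} : Finset ℕ), (n + h).Prime) →
        (Set.ncard {n : ℕ | n ∈ S ∧ ¬ Pool.Agent.Q45.Tup.OnAP k (Real.log X ^ D) S n} : ℝ) ≤
          δ / 2 * (X / Real.log X ^ 3) := by
      intro b hb
      have h1 := Pool.Agent.Q45.Tup.primes {0, b, 6} (adm b hb) k hk (δ / 2) (by positivity)
      rw [card3 b hb] at h1
      exact h1
    obtain ⟨D1, X1, h1⟩ := key 2 (Or.inl rfl)
    obtain ⟨D2, X2, h2⟩ := key 4 (Or.inr rfl)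
    refine ⟨max D1 D2, max (max X1 X2) 3, fun X hX A S hS hSA => ?_⟩
    have hX1 : X1 ≤ X := (le_max_left _ _).trans ((le_max_left _ _).trans hX)
    have hX2 : X2 ≤ X := (le_max_right _ _).trans ((le_max_left _ _).trans hX)
    have hX3 : 3 ≤ X := (le_max_right _ _).trans hX
    have hl : 1 ≤ Real.log X := by
      rw [Real.le_log_iff_exp_le (by exact_mod_cast (by omega : 0 < X))]
      have := Real.exp_one_lt_d9
      have : (3 : ℝ) ≤ X := by exact_mod_cast hX3
      linarith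
    -- the two kinds
    have hfin : ∀ b : ℕ, (S ∩ {n | (n + b).Prime}).Finite := fun b =>
      (finite_toSet (Ioc A (A + X))).subset (fun n hn => by
        rw [mem_coe, mem_Ioc]
        exact hSA n hn.1)
    have hmono : ∀ (D D' : ℕ) (U : Set ℕ) (p : ℕ), D ≤ D' → OnAP k (Real.log X ^ D) U p →
        OnAP k (Real.log X ^ D') U p := by
      rintro D D' U p hD ⟨a, d, h1, h2, h3, h4⟩
      exact ⟨a, d, h1, h2.trans (pow_le_pow_right₀ hl hD), h3, h4⟩
    have b1 := h1 X hX1 A (hfin 2).toFinset (by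
      intro n hn
      rw [Set.Finite.mem_toFinset] at hn
      refine ⟨(hSA n hn.1).1, (hSA n hn.1).2, ?_⟩
      have h5 := hS hn.1
      have h6 : (n + 2).Prime := hn.2
      intro h hh
      simp only [mem_insert, mem_singleton] at hh
      rcases hh with rfl | rfl | rfl
      · exact h5.1
      · exact h6
      · exact h5.2.1)
    have b2 := h2 X hX2 A (hfin 4).toFinset (by
      intro n hn
      rw [Set.Finite.mem_toFinset] at hn
      refine ⟨(hSA n hn.1).1, (hSA n hn.1).2, ?_⟩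
      have h5 := hS hn.1
      have h6 : (n + 4).Prime := hn.2
      intro h hh
      simp only [mem_insert, mem_singleton] at hh
      rcases hh with rfl | rfl | rfl
      · exact h5.1
      · exact h6
      · exact h5.2.1)
    set B1 : Set ℕ := {n : ℕ | n ∈ (hfin 2).toFinset ∧ ¬ Pool.Agent.Q45.Tup.OnAP k (Real.log X ^ D1) (hfin 2).toFinset n}
      with hB1
    set B2 : Set ℕ := {n : ℕ | n ∈ (hfin 4).toFinset ∧ ¬ Pool.Agent.Q45.Tup.OnAP k (Real.log X ^ D2) (hfin 4).toFinset n}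
      with hB2
    have hB1f : B1.Finite := (hfin 2).toFinset.finite_toSet.subset (fun n hn => hn.1)
    have hB2f : B2.Finite := (hfin 4).toFinset.finite_toSet.subset (fun n hn => hn.1)
    have hsub : {p : ℕ | p ∈ S ∧ ¬ (OnAP k (Real.log X ^ max D1 D2) (S ∩ {n | (n + 2).Prime}) p ∨
        OnAP k (Real.log X ^ max D1 D2) (S ∩ {n | (n + 4).Prime}) p)} ⊆ B1 ∪ B2 := by
      rintro p ⟨hp1, hp2⟩
      push Not at hp2
      rcases (hS hp1).2.2 with h | h
      · left
        refine ⟨(Set.Finite.mem_toFinset _).2 ⟨hp1, h⟩, fun h7 => hp2.1 ?_⟩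
        apply hmono _ _ _ _ (le_max_left D1 D2)
        rw [← onAP_iff, Set.Finite.coe_toFinset] at h7
        exact h7
      · right
        refine ⟨(Set.Finite.mem_toFinset _).2 ⟨hp1, h⟩, fun h7 => hp2.2 ?_⟩
        apply hmono _ _ _ _ (le_max_right D1 D2)
        rw [← onAP_iff, Set.Finite.coe_toFinset] at h7
        exact h7
    have h8 : Set.ncard {p : ℕ | p ∈ S ∧ ¬ (OnAP k (Real.log X ^ max D1 D2) (S ∩ {n | (n + 2).Prime}) p ∨
        OnAP k (Real.log X ^ max D1 D2) (S ∩ {n | (n + 4).Prime}) p)} ≤ B1.ncard + B2.ncard :=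
      (Set.ncard_le_ncard hsub (hB1f.union hB2f)).trans (Set.ncard_union_le _ _)
    have h9 : (Set.ncard {p : ℕ | p ∈ S ∧ ¬ (OnAP k (Real.log X ^ max D1 D2) (S ∩ {n | (n + 2).Prime}) p ∨
        OnAP k (Real.log X ^ max D1 D2) (S ∩ {n | (n + 4).Prime}) p)} : ℝ) ≤ B1.ncard + B2.ncard := by
      exact_mod_cast h8
    linarith
  · intro κ hκ
    have key : ∀ b : ℕ, b = 2 ∨ b = 4 → ∃ D X₀ : ℕ, ∀ X : ℕ, X₀ ≤ X → ∀ A : ℕ,
        ∀ S : Finset ℕ, (∀ n ∈ S, A < n ∧ n ≤ A + X ∧ ∀ h ∈ ({0, b, 6} : Finset ℕ), ∀ q : ℕ, q.Prime → q ∣ n + h →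
          (X : ℝ) ^ κ < q) →
        (Set.ncard {n : ℕ | n ∈ S ∧ ¬ Pool.Agent.Q45.Tup.OnAP k (Real.log X ^ D) S n} : ℝ) ≤
          δ * (X / Real.log X ^ 3) := by
      intro b hb
      have h1 := Pool.Agent.Q45.Tup.rough {0, b, 6} (adm b hb) k hk κ δ hκ hδ
      rw [card3 b hb] at h1
      exact h1
    obtain ⟨D1, X1, h1⟩ := key 2 (Or.inl rfl)
    obtain ⟨D2, X2, h2⟩ := key 4 (Or.inr rfl)
    refine ⟨max D1 D2, max (max X1 X2) 3, fun X hX A b hb S hS => ?_⟩
    have hX1 : X1 ≤ X := (le_max_left _ _).trans ((le_max_left _ _).trans hX)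
    have hX2 : X2 ≤ X := (le_max_right _ _).trans ((le_max_left _ _).trans hX)
    have hX3 : 3 ≤ X := (le_max_right _ _).trans hX
    have hl : 1 ≤ Real.log X := by
      rw [Real.le_log_iff_exp_le (by exact_mod_cast (by omega : 0 < X))]
      have := Real.exp_one_lt_d9
      have : (3 : ℝ) ≤ X := by exact_mod_cast hX3
      linarith
    have hfin : S.Finite := (finite_toSet (Ioc A (A + X))).subset (fun n hn => by
        rw [mem_coe, mem_Ioc]
        exact ⟨(hS n hn).1, (hS n hn).2.1⟩)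
    obtain ⟨S', rfl⟩ : ∃ S' : Finset ℕ, S = (S' : Set ℕ) := ⟨hfin.toFinset, by simp⟩
    have step : ∀ D : ℕ, D ≤ max D1 D2 →
        (Set.ncard {n : ℕ | n ∈ S' ∧ ¬ Pool.Agent.Q45.Tup.OnAP k (Real.log X ^ D) S' n} : ℝ) ≤
          δ * (X / Real.log X ^ 3) →
        (Set.ncard {n : ℕ | n ∈ (S' : Set ℕ) ∧ ¬ OnAP k (Real.log X ^ max D1 D2) (S' : Set ℕ) n} : ℝ) ≤
          δ * (X / Real.log X ^ 3) := by
      intro D hD h3
      refine le_trans ?_ h3
      have h4 : {n : ℕ | n ∈ (S' : Set ℕ) ∧ ¬ OnAP k (Real.log X ^ max D1 D2) (S' : Set ℕ) n} ⊆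
          {n : ℕ | n ∈ S' ∧ ¬ Pool.Agent.Q45.Tup.OnAP k (Real.log X ^ D) S' n} := by
        rintro n ⟨h5, h6⟩
        refine ⟨mem_coe.1 h5, fun h7 => h6 ?_⟩
        rw [← onAP_iff] at h7
        obtain ⟨a, d, g1, g2, g3, g4⟩ := h7
        exact ⟨a, d, g1, g2.trans (pow_le_pow_right₀ hl hD), g3, g4⟩
      exact_mod_cast Set.ncard_le_ncard h4 (S'.finite_toSet.subset (fun n hn => hn.1))
    rcases hb with rfl | rfl
    · exact step D1 (le_max_left _ _) (h1 X hX1 A S' hS)
    · exact step D2 (le_max_right _ _) (h2 X hX2 A S' hS)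

end Pool.Agent.Results.MP_dddec0_nt.TripletsOnProgressions
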